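import Pool.Agent.W429.ABG.Stmts
set_option autoImplicit false

/-! ABG-C: counting recursion for signed set systems. -/

namespace Pool.Agent.W327.ABG

open Pool.Agent.W429.ABG

theorem c : S_C := by
  classical
  intro J n 𝒥 U w hne
  constructor
  · intro μ
    unfold cnt
    have key : ∀ T : Finset J, T ⊆ 𝒥 → T.biUnion U = ∅ → T = ∅ := by
      intro T hT h
      by_contra hcon
      obtain ⟨j, hj⟩ := Finset.nonempty_iff_ne_empty.2 hcon
      obtain ⟨x, hx⟩ := hne j (hT hj)
      have : x ∈ T.biUnion U := Finset.mem_biUnion.2 ⟨j, hj, hx⟩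
      rw [h] at this
      simp at this
    by_cases hμ : μ = 0
    · rw [if_pos hμ]
      have : 𝒥.powerset.filter (fun T : Finset J => (T : Set J).PairwiseDisjoint U ∧
          T.biUnion U = ∅ ∧ ∑ j ∈ T, w j = μ) = {∅} := by
        ext T
        simp only [Finset.mem_filter, Finset.mem_powerset, Finset.mem_singleton]
        constructor
        · rintro ⟨h1, _, h3, _⟩
          exact key T h1 h3
        · rintro rfl
          simp [hμ]
      convert (Finset.sum_congr this fun T _ => rfl).trans ?_ using 1
      simp
    · rw [if_neg hμ]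
      apply Finset.sum_eq_zero
      intro T hT
      exfalso
      simp only [Finset.mem_filter, Finset.mem_powerset] at hT
      obtain ⟨h1, _, h3, h4⟩ := hT
      have := key T h1 h3
      subst this
      apply hμ
      rw [← h4]; simp
  · intro S s hs μ
    unfold cnt
    rw [← Finset.sum_neg_distrib]
    simp_rw [← Finset.sum_neg_distrib]
    rw [Finset.sum_sigma']
    symm
    refine Finset.sum_bij (fun (q : Σ _ : J, Finset J) _ => insert q.1 q.2) ?_ ?_ ?_ ?_
    · rintro ⟨j, T⟩ hq
      simp only [Finset.mem_sigma, Finset.mem_filter, Finset.mem_powerset] at hq ⊢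
      obtain ⟨⟨hj, hsj, hjS⟩, hT, hd, hu, hw⟩ := hq
      have hdisj : ∀ i ∈ T, Disjoint (U j) (U i) := by
        intro i hi
        have h1 : U i ⊆ S \ U j := by
          rw [← hu]; exact Finset.subset_biUnion_of_mem U hi
        exact (Finset.disjoint_sdiff.mono_right h1)
      have hjT : j ∉ T := fun hjT => by
        have := hdisj j hjT
        rw [disjoint_self] at this
        simp [this] at hsj
      refine ⟨Finset.insert_subset hj hT, ?_, ?_, ?_⟩
      · rw [Finset.coe_insert]
        refine hd.insert fun i hi _ => hdisj i hi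
      · rw [Finset.biUnion_insert, hu]
        exact Finset.union_sdiff_of_subset hjS
      · rw [Finset.sum_insert hjT, hw]; abel
    · rintro ⟨j, T⟩ hq ⟨k, T'⟩ hq' heq
      simp only [Finset.mem_sigma, Finset.mem_filter, Finset.mem_powerset] at hq hq' heq
      obtain ⟨⟨hj, hsj, hjS⟩, hT, hd, hu, hw⟩ := hq
      obtain ⟨⟨hk, hsk, hkS⟩, hT', hd', hu', hw'⟩ := hq'
      have hn : ∀ i ∈ T, s ∉ U i := by
        intro i hi h
        have h1 : U i ⊆ S \ U j := by
          rw [← hu]; exact Finset.subset_biUnion_of_mem U hi
        have := h1 h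
        simp [hsj] at this
      have hn' : ∀ i ∈ T', s ∉ U i := by
        intro i hi h
        have h1 : U i ⊆ S \ U k := by
          rw [← hu']; exact Finset.subset_biUnion_of_mem U hi
        have := h1 h
        simp [hsk] at this
      have hjk : j = k := by
        have : k ∈ insert j T := by rw [heq]; exact Finset.mem_insert_self k T'
        rcases Finset.mem_insert.1 this with h | h
        · exact h.symm
        · exact absurd hsk (hn k h)
      subst hjk
      have h1 : j ∉ T := fun h => hn j h hsj
      have h2 : j ∉ T' := fun h => hn' j h hsj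
      have : T = T' := by
        rw [← Finset.erase_insert h1, heq, Finset.erase_insert h2]
      rw [this]
    · intro T hT
      simp only [Finset.mem_filter, Finset.mem_powerset] at hT
      obtain ⟨h1, hd, hu, hw⟩ := hT
      have hs' : s ∈ T.biUnion U := by rw [hu]; exact hs
      obtain ⟨j, hj, hsj⟩ := Finset.mem_biUnion.1 hs'
      have hdis : ∀ i ∈ T.erase j, Disjoint (U i) (U j) := by
        intro i hi
        exact hd (Finset.mem_coe.2 (Finset.mem_of_mem_erase hi)) (Finset.mem_coe.2 hj)
          (Finset.ne_of_mem_erase hi)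
      refine ⟨⟨j, T.erase j⟩, ?_, Finset.insert_erase hj⟩
      simp only [Finset.mem_sigma, Finset.mem_filter, Finset.mem_powerset]
      refine ⟨⟨h1 hj, hsj, ?_⟩, (Finset.erase_subset _ _).trans h1, ?_, ?_, ?_⟩
      · rw [← hu]; exact Finset.subset_biUnion_of_mem U hj
      · exact hd.subset (Finset.coe_subset.2 (Finset.erase_subset _ _))
      · ext x
        simp only [Finset.mem_biUnion, Finset.mem_sdiff]
        constructor
        · rintro ⟨i, hi, hx⟩
          refine ⟨?_, fun hxj => Finset.disjoint_left.1 (hdis i hi) hx hxj⟩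
          rw [← hu]
          exact Finset.mem_biUnion.2 ⟨i, Finset.mem_of_mem_erase hi, hx⟩
        · rintro ⟨hx, hxj⟩
          rw [← hu] at hx
          obtain ⟨i, hi, hxi⟩ := Finset.mem_biUnion.1 hx
          refine ⟨i, Finset.mem_erase.2 ⟨?_, hi⟩, hxi⟩
          rintro rfl
          exact hxj hxi
      · rw [← hw, ← Finset.add_sum_erase T w hj]; abel
    · rintro ⟨j, T⟩ hq
      simp only [Finset.mem_sigma, Finset.mem_filter, Finset.mem_powerset] at hq
      obtain ⟨⟨hj, hsj, hjS⟩, hT, hd, hu, hw⟩ := hq
      have hjT : j ∉ T := fun hjT => by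
        have h1 : U j ⊆ S \ U j := by
          rw [← hu]; exact Finset.subset_biUnion_of_mem U hjT
        have := h1 hsj
        simp [hsj] at this
      simp only [Finset.card_insert_of_notMem hjT]
      ring

end Pool.Agent.W327.ABG
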